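import Mathlib

/-!
Combinatorial core: no continuous family of two-colourings of the natural numbers can force the
solutions of Hindman's theorem for sums of exactly two elements to bound a finite set of events.
-/

namespace Pool.Agent.P.MP_db6017_lc

open Filter

/-- A nonprincipal idempotent ultrafilter on the natural numbers that lives on even numbers. -/
structure GoodU (V : Ultrafilter ℕ) : Prop where
  idem : ∀ p : ℕ → Prop, (∀ᶠ v in V, p v) → ∀ᶠ v in V, ∀ᶠ w in V, p (v + w)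
  big : ∀ N : ℕ, ∀ᶠ v in V, N ≤ v
  even : ∀ᶠ (v : ℕ) in V, Even v

attribute [local instance] Ultrafilter.add in
theorem exists_goodU : ∃ V : Ultrafilter ℕ, GoodU V := by
  obtain ⟨U, hU, hFS⟩ := Hindman.exists_idempotent_ultrafilter_le_FS (Stream'.const (2 : ℕ))
  have key : ∀ (a : Stream' ℕ) (m : ℕ), m ∈ Hindman.FS a → (∀ n, a.get n = 2) →
      0 < m ∧ Even m := by
    intro a m hm
    induction hm with
    | head' a =>
      intro h
      have : a.head = 2 := h 0
      rw [this]; exact ⟨by norm_num, by norm_num⟩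
    | tail' a m _ ih =>
      intro h
      exact ih (fun n => by rw [Stream'.get_tail]; exact h _)
    | cons' a m _ ih =>
      intro h
      have h0 : a.head = 2 := h 0
      obtain ⟨h1, h2⟩ := ih (fun n => by rw [Stream'.get_tail]; exact h _)
      rw [h0]
      exact ⟨by omega, (by norm_num : Even 2).add h2⟩
  have hpos : ∀ᶠ v in U, 0 < v ∧ Even v := by
    filter_upwards [hFS] with m hm
    exact key _ m hm (fun n => Stream'.get_const n 2)
  have idem : ∀ p : ℕ → Prop, (∀ᶠ v in U, p v) → ∀ᶠ v in U, ∀ᶠ w in U, p (v + w) := by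
    intro p hp
    rw [← Ultrafilter.eventually_add, hU]
    exact hp
  refine ⟨U, idem, ?_, hpos.mono fun v h => h.2⟩
  intro N
  induction N with
  | zero => exact Eventually.of_forall fun v => Nat.zero_le v
  | succ N ih =>
    rcases U.em (fun v => N + 1 ≤ v) with h | h
    · exact h
    · exfalso
      have hN : ∀ᶠ v in U, v = N := by
        filter_upwards [h, ih] with v h1 h2
        omega
      have h2 := idem _ hN
      obtain ⟨v, hv, hv2⟩ := (h2.and hN).exists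
      obtain ⟨w, hw, hw2⟩ := (hv.and hpos).exists
      omega

/-- `L V d t i`: the limit of `d (t + v)` along `V` is `i`. -/
def L (V : Ultrafilter ℕ) (d : ℕ → Fin 2) (t : ℕ) (i : Fin 2) : Prop :=
  ∀ᶠ v in V, d (t + v) = i

theorem fin2_ne {i j k : Fin 2} (h1 : i ≠ j) (h2 : k ≠ i) : k = j := by
  revert i j k; decide

theorem L_exists (V : Ultrafilter ℕ) (d : ℕ → Fin 2) (t : ℕ) : ∃ i, L V d t i := by
  rcases V.em (fun v => d (t + v) = 0) with h | h
  · exact ⟨0, h⟩
  · refine ⟨1, h.mono fun v hv => ?_⟩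
    exact fin2_ne (i := 0) (by decide) hv

theorem L_unique {V : Ultrafilter ℕ} {d : ℕ → Fin 2} {t : ℕ} {i j : Fin 2}
    (hi : L V d t i) (hj : L V d t j) : i = j := by
  obtain ⟨v, h1, h2⟩ := (Filter.Eventually.and hi hj).exists
  rw [← h1, ← h2]

theorem L_rec {V : Ultrafilter ℕ} (hV : GoodU V) {d : ℕ → Fin 2} {t : ℕ} {i : Fin 2}
    (h : L V d t i) : ∀ᶠ v in V, L V d (t + v) i := by
  filter_upwards [hV.idem _ h] with v hv
  filter_upwards [hv] with w hw
  rwa [add_assoc]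

theorem exists_seq {V : Ultrafilter ℕ} (hV : GoodU V) (P : ℕ → Prop) (r : ℕ → ℕ → Prop)
    (hP : ∀ᶠ v in V, P v) (hr : ∀ v, P v → ∀ᶠ w in V, r v w) :
    ∃ f : ℕ → ℕ, StrictMono f ∧ (∀ n, P (f n)) ∧ ∀ m n, m < n → r (f m) (f n) := by
  obtain ⟨f, h1, h2⟩ := exists_seq_of_forall_finset_exists P (fun v w => v < w ∧ r v w) (by
    intro s hs
    have : ∀ᶠ w in V, ∀ x ∈ s, x < w ∧ r x w := by
      rw [Filter.eventually_all_finset]
      intro x hx
      exact (hV.big (x + 1)).and (hr x (hs x hx))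
    obtain ⟨w, hw1, hw2⟩ := (hP.and this).exists
    exact ⟨w, hw1, hw2⟩)
  exact ⟨f, fun m n h => (h2 m n h).1, h1, fun m n h => (h2 m n h).2⟩

/-- `H` is an infinite set all of whose sums of two distinct elements have one colour. -/
def Sol (d : ℕ → Fin 2) (H : Set ℕ) : Prop :=
  H.Infinite ∧ ∃ i, ∀ x ∈ H, ∀ y ∈ H, x < y → d (x + y) = i

/-- Two sets agree below `u`. -/
def Agree (A B : Set ℕ) (u : ℕ) : Prop := ∀ k < u, (k ∈ A ↔ k ∈ B)

theorem Agree.mono {A B : Set ℕ} {u u' : ℕ} (h : Agree A B u') (hu : u ≤ u') : Agree A B u :=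
  fun k hk => h k (lt_of_lt_of_le hk hu)

theorem Agree.trans {A B C : Set ℕ} {u : ℕ} (h : Agree A B u) (h' : Agree B C u) :
    Agree A C u := fun k hk => (h k hk).trans (h' k hk)

theorem Agree.symm {A B : Set ℕ} {u : ℕ} (h : Agree A B u) : Agree B A u :=
  fun k hk => (h k hk).symm

/-- Extension lemma. -/
theorem extend {V : Ultrafilter ℕ} (hV : GoodU V) (d : ℕ → Fin 2) (H : Set ℕ) (u b : ℕ)
    (i : Fin 2) (hom : ∀ x ∈ H, ∀ y ∈ H, x < y → y < u → d (x + y) = i)
    (hb : L V d (2 * b) i) (hx : ∀ x ∈ H, x < u → L V d (x + b) i) :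
    ∃ H' : Set ℕ, Agree H H' u ∧ Sol d H' := by
  obtain ⟨f, hf, hP, hr⟩ := exists_seq hV
    (fun v => u ≤ v ∧ (∀ x ∈ Finset.range u, x ∈ H → d (x + b + v) = i) ∧ L V d (2 * b + v) i)
    (fun v w => d (2 * b + v + w) = i)
    (by
      refine (hV.big u).and (Filter.Eventually.and ?_ (L_rec hV hb))
      rw [Filter.eventually_all_finset]
      intro x hxu
      by_cases hxH : x ∈ H
      · filter_upwards [hx x hxH (Finset.mem_range.mp hxu)] with v hv _
        exact hv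
      · exact Eventually.of_forall fun v h => absurd h hxH)
    (fun v hv => hv.2.2)
  refine ⟨{x | (x ∈ H ∧ x < u) ∨ ∃ n, x = b + f n}, ?_, ?_, i, ?_⟩
  · intro k hk
    constructor
    · intro h; exact Or.inl ⟨h, hk⟩
    · rintro (h | ⟨n, rfl⟩)
      · exact h.1
      · have := (hP n).1
        omega
  · apply Set.infinite_of_injective_forall_mem (f := fun n => b + f n)
    · intro m n h
      exact hf.injective (by simpa using h)
    · intro n; exact Or.inr ⟨n, rfl⟩
  · rintro x (hx1 | ⟨m, rfl⟩) y (hy1 | ⟨n, rfl⟩) hxy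
    · exact hom x hx1.1 y hy1.1 hxy hy1.2
    · rw [← add_assoc]
      exact (hP n).2.1 x (Finset.mem_range.mpr hx1.2) hx1.1
    · have := (hP m).1
      have := hy1.2
      omega
    · have hmn : m < n := hf.lt_iff_lt.mp (by omega)
      have := hr m n hmn
      rw [← this]; congr 1; ring

/-- If the limit colouring takes both colours on even numbers, both transitions occur. -/
theorem transition {V : Ultrafilter ℕ} (hV : GoodU V) (d : ℕ → Fin 2) {i j : Fin 2} (hij : i ≠ j)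
    {a a' : ℕ} (ha : L V d (2 * a) i) (ha' : L V d (2 * a') j) :
    ∃ b, L V d (2 * b) i ∧ L V d (2 * (b + 1)) j := by
  obtain ⟨v, hv1, hv2, ⟨w, hw⟩⟩ := ((L_rec hV ha').and ((hV.big (2 * a)).and hV.even)).exists
  have h1 : ∃ n, L V d (2 * (a + n)) j := by
    refine ⟨a' + w - a, ?_⟩
    have : 2 * (a + (a' + w - a)) = 2 * a' + v := by omega
    rw [this]; exact hv1
  classical
  have h2 := Nat.find_spec h1
  rcases hn : Nat.find h1 with _ | n
  · rw [hn] at h2
    exact absurd (L_unique ha h2) hij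
  · have h3 := Nat.find_min h1 (m := n) (by omega)
    rw [hn] at h2
    obtain ⟨k, hk⟩ := L_exists V d (2 * (a + n))
    have hkj : k ≠ j := fun h => h3 (h ▸ hk)
    have : k = i := fin2_ne hij.symm hkj
    exact ⟨a + n, this ▸ hk, h2⟩

section Main

variable (d : Finset ℕ → ℕ → Fin 2)

/-- Seeing `E` and `H` below `u` already commits to the bound `u`. -/
def Kill (E : Finset ℕ) (u : ℕ) (H : Set ℕ) : Prop :=
  ∀ (E' : Finset ℕ) (H' : Set ℕ), Agree E E' u → Agree H H' u → Sol (d E') H' → ∀ e ∈ E', e < u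

variable {d}

theorem Kill.mono {E : Finset ℕ} {u u' : ℕ} {H : Set ℕ} (h : Kill d E u H) (hu : u ≤ u') :
    Kill d E u' H := fun E' H' h1 h2 h3 e he =>
  lt_of_lt_of_le (h E' H' (h1.mono hu) (h2.mono hu) h3 e he) hu

theorem Kill.congr {E : Finset ℕ} {u : ℕ} {H H₂ : Set ℕ} (h : Kill d E u H) (hA : Agree H H₂ u) :
    Kill d E u H₂ := fun E' H' h1 h2 h3 e he => h E' H' h1 (hA.trans h2) h3 e he

theorem win {V : Ultrafilter ℕ} (hV : GoodU V) {E E' : Finset ℕ} {u : ℕ} {H : Set ℕ}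
    (hK : Kill d E u H) (hE : Agree E E' u) {e : ℕ} (he : e ∈ E') (hue : u ≤ e) (b : ℕ)
    (i : Fin 2) (hom : ∀ x ∈ H, ∀ y ∈ H, x < y → y < u → d E' (x + y) = i)
    (hb : L V (d E') (2 * b) i) (hx : ∀ x ∈ H, x < u → L V (d E') (x + b) i) : False := by
  obtain ⟨H', h1, h2⟩ := extend hV (d E') H u b i hom hb hx
  have := hK E' H' hE h1 h2 e he
  omega

theorem trap_const {V : Ultrafilter ℕ} (hV : GoodU V)
    (hcont : ∀ (E : Finset ℕ) (K : ℕ), ∃ M, ∀ E' : Finset ℕ, Agree E E' M →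
      ∀ z < K, d E' z = d E z)
    (hkill : ∀ (E : Finset ℕ) (H : Set ℕ), Sol (d E) H → ∃ u, Kill d E u H)
    (E : Finset ℕ) (i : Fin 2) (hE : ∀ a, L V (d E) (2 * a) i) :
    ∃ M, ∀ E' : Finset ℕ, Agree E E' M → (∃ e ∈ E', M ≤ e) → ¬ ∀ a, L V (d E') (2 * a) i := by
  obtain ⟨f, hf, hP, hr⟩ := exists_seq hV (fun v => Even v ∧ L V (d E) v i)
    (fun v w => d E (v + w) = i)
    (by
      refine hV.even.and ?_
      have := L_rec hV (hE 0)
      simpa using this)
    (fun v hv => hv.2)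
  have hom : ∀ x ∈ Set.range f, ∀ y ∈ Set.range f, x < y → d E (x + y) = i := by
    rintro x ⟨m, rfl⟩ y ⟨n, rfl⟩ hxy
    exact hr m n (hf.lt_iff_lt.mp hxy)
  obtain ⟨u, hu⟩ := hkill E (Set.range f) ⟨Set.infinite_range_of_injective hf.injective, i, hom⟩
  obtain ⟨M, hM⟩ := hcont E (2 * u)
  refine ⟨max u M, fun E' hA ⟨e, he, hMe⟩ hE' => ?_⟩
  refine win hV hu (hA.mono (le_max_left _ _)) he (le_trans (le_max_left _ _) hMe) 0 i ?_
    (hE' 0) ?_
  · intro x hx y hy hxy hyu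
    rw [hM E' (hA.mono (le_max_right _ _)) _ (by omega)]
    exact hom x hx y hy hxy
  · rintro x ⟨n, rfl⟩ _
    obtain ⟨w, hw⟩ := (hP n).1
    have : f n + 0 = 2 * w := by omega
    rw [this]; exact hE' w

theorem trap_mixed {V : Ultrafilter ℕ} (hV : GoodU V)
    (hcont : ∀ (E : Finset ℕ) (K : ℕ), ∃ M, ∀ E' : Finset ℕ, Agree E E' M →
      ∀ z < K, d E' z = d E z)
    (hkill : ∀ (E : Finset ℕ) (H : Set ℕ), Sol (d E) H → ∃ u, Kill d E u H)
    (E : Finset ℕ) {a₀ a₁ : ℕ} (h0 : L V (d E) (2 * a₀) 0) (h1 : L V (d E) (2 * a₁) 1) :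
    False := by
  obtain ⟨a, ha0, ha1⟩ := transition hV (d E) (by decide) h0 h1
  have hai : ∀ i : Fin 2, L V (d E) (2 * (a + i)) i := by
    intro i
    fin_cases i
    · simpa using ha0
    · simpa using ha1
  obtain ⟨f, hf, hP, hr⟩ := exists_seq hV
    (fun v => Even v ∧ ∀ i : Fin 2, L V (d E) (2 * (a + i) + v) i)
    (fun v w => ∀ i : Fin 2, d E (2 * (a + i) + v + w) = i)
    (by
      refine hV.even.and ?_
      rw [Filter.eventually_all]
      exact fun i => L_rec hV (hai i))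
    (by
      intro v hv
      rw [Filter.eventually_all]
      exact hv.2)
  let S : (ℕ → Fin 2) → Fin 2 → Set ℕ := fun ξ i => {x | ∃ n, ξ n = i ∧ x = a + i + f n}
  have hom : ∀ ξ i, ∀ x ∈ S ξ i, ∀ y ∈ S ξ i, x < y → d E (x + y) = i := by
    rintro ξ i x ⟨m, _, rfl⟩ y ⟨n, _, rfl⟩ hxy
    have hmn : m < n := hf.lt_iff_lt.mp (by omega)
    have h3 : a + i + f m + (a + i + f n) = 2 * (a + i) + f m + f n := by ring
    rw [h3]; exact hr m n hmn i
  have hinf : ∀ ξ : ℕ → Fin 2, ∃ i, (S ξ i).Infinite := by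
    intro ξ
    obtain ⟨i, hi⟩ := Finite.exists_infinite_fiber ξ
    refine ⟨i, ?_⟩
    have h2 : (ξ ⁻¹' {i}).Infinite := Set.infinite_coe_iff.mp hi
    have h3 : ((fun n => a + i + f n) '' (ξ ⁻¹' {i})).Infinite :=
      h2.image (fun m _ n _ h => hf.injective (by simpa using h))
    refine h3.mono ?_
    rintro x ⟨n, hn, rfl⟩
    exact ⟨n, hn, rfl⟩
  let U : ℕ → Set (ℕ → Fin 2) := fun u => {ξ | ∃ i, Kill d E u (S ξ i)}
  have hUo : ∀ u, IsOpen (U u) := by
    intro u
    rw [isOpen_iff_mem_nhds]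
    rintro ξ ⟨i, hi⟩
    have hN : {ξ' : ℕ → Fin 2 | ∀ n ∈ Finset.range u, ξ' n = ξ n} ∈ nhds ξ := by
      change ∀ᶠ ξ' in nhds ξ, ∀ n ∈ Finset.range u, ξ' n = ξ n
      rw [Filter.eventually_all_finset]
      intro n _
      have hc : Continuous (fun ξ' : ℕ → Fin 2 => ξ' n) := continuous_apply n
      exact (hc.isOpen_preimage {ξ n} (isOpen_discrete _)).mem_nhds rfl
    filter_upwards [hN] with ξ' hξ'
    refine ⟨i, hi.congr ?_⟩
    intro k hk
    constructor
    · rintro ⟨n, hn, rfl⟩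
      have : n ≤ f n := hf.le_apply
      exact ⟨n, by rw [hξ' n (Finset.mem_range.mpr (by omega))]; exact hn, rfl⟩
    · rintro ⟨n, hn, rfl⟩
      have : n ≤ f n := hf.le_apply
      exact ⟨n, by rw [← hξ' n (Finset.mem_range.mpr (by omega))]; exact hn, rfl⟩
  have hcov : (Set.univ : Set (ℕ → Fin 2)) ⊆ ⋃ u, U u := by
    intro ξ _
    obtain ⟨i, hi⟩ := hinf ξ
    obtain ⟨u, hu⟩ := hkill E (S ξ i) ⟨hi, i, hom ξ i⟩
    exact Set.mem_iUnion.mpr ⟨u, i, hu⟩
  have hdir : Directed (· ⊆ ·) U := by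
    apply Monotone.directed_le
    rintro u u' huu ξ ⟨i, hi⟩
    exact ⟨i, hi.mono huu⟩
  obtain ⟨u, hu⟩ := isCompact_univ.elim_directed_cover U hUo hcov hdir
  obtain ⟨M, hM⟩ := hcont E (2 * u)
  set E' : Finset ℕ := insert (max u M) E with hE'
  have hA : Agree E E' (max u M) := by
    intro k hk
    simp only [hE', Finset.coe_insert, Set.mem_insert_iff, Finset.mem_coe]
    constructor
    · exact Or.inr
    · rintro (h | h)
      · omega
      · exact h
  have he : max u M ∈ E' := Finset.mem_insert_self _ _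
  have hom' : ∀ ξ i, ∀ x ∈ S ξ i, ∀ y ∈ S ξ i, x < y → y < u → d E' (x + y) = i := by
    intro ξ i x hx y hy hxy hyu
    rw [hM E' (hA.mono (le_max_right _ _)) _ (by omega)]
    exact hom ξ i x hx y hy hxy
  by_cases hc : ∃ i : Fin 2, ∀ b, L V (d E') (2 * b) i
  · obtain ⟨i, hi⟩ := hc
    obtain ⟨j, hj⟩ := hu (Set.mem_univ (fun _ => i))
    refine win hV hj (hA.mono (le_max_left _ _)) he (le_max_left _ _) (a + i) i ?_ (hi _) ?_
    · intro x hx y hy hxy hyu
      obtain ⟨n, hn, _⟩ := id hx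
      have hji : j = i := hn.symm
      subst hji
      exact hom' _ _ x hx y hy hxy hyu
    · rintro x ⟨n, hn, rfl⟩ _
      have hji : j = i := hn.symm
      subst hji
      obtain ⟨w, hw⟩ := (hP n).1
      have : a + j + f n + (a + j) = 2 * (a + j + w) := by omega
      rw [this]; exact hi _
  · push Not at hc
    obtain ⟨b₀, hb₀⟩ := hc 0
    obtain ⟨b₁, hb₁⟩ := hc 1
    obtain ⟨k₀, hk₀⟩ := L_exists V (d E') (2 * b₀)
    obtain ⟨k₁, hk₁⟩ := L_exists V (d E') (2 * b₁)
    have e₀ : k₀ = 1 := fin2_ne (i := 0) (by decide) (fun h => hb₀ (h ▸ hk₀))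
    have e₁ : k₁ = 0 := fin2_ne (i := 1) (by decide) (fun h => hb₁ (h ▸ hk₁))
    subst e₀ e₁
    obtain ⟨b, hb1, hb0⟩ := transition hV (d E') (by decide) hk₀ hk₁
    choose χ hχ using L_exists V (d E')
    obtain ⟨j, hj⟩ := hu (Set.mem_univ (fun n => χ (a + b + 1 + f n)))
    refine win hV hj (hA.mono (le_max_left _ _)) he (le_max_left _ _) (b + 1 - j) j
      (hom' _ _) ?_ ?_
    · fin_cases j
      · simpa using hb0
      · simpa using hb1
    · rintro x ⟨n, hn, rfl⟩ _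
      have hj2 : (j : ℕ) < 2 := j.2
      have : a + j + f n + (b + 1 - j) = a + b + 1 + f n := by omega
      rw [this, ← hn]
      exact hχ _

theorem no_family
    (hcont : ∀ (E : Finset ℕ) (K : ℕ), ∃ M, ∀ E' : Finset ℕ, Agree E E' M →
      ∀ z < K, d E' z = d E z)
    (hkill : ∀ (E : Finset ℕ) (H : Set ℕ), Sol (d E) H → ∃ u, Kill d E u H) : False := by
  obtain ⟨V, hV⟩ := exists_goodU
  have hconst : ∀ E : Finset ℕ, ∃ i : Fin 2, ∀ a, L V (d E) (2 * a) i := by
    intro E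
    obtain ⟨i, hi⟩ := L_exists V (d E) (2 * 0)
    refine ⟨i, fun a => ?_⟩
    obtain ⟨j, hj⟩ := L_exists V (d E) (2 * a)
    by_cases hij : j = i
    · exact hij ▸ hj
    · exfalso
      fin_cases i <;> fin_cases j
      · exact hij rfl
      · exact trap_mixed hV hcont hkill E hi hj
      · exact trap_mixed hV hcont hkill E hj hi
      · exact hij rfl
  have hins : ∀ (E : Finset ℕ) (M : ℕ), Agree E (insert M E : Finset ℕ) M := by
    intro E M k hk
    simp only [Finset.coe_insert, Set.mem_insert_iff, Finset.mem_coe]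
    constructor
    · exact Or.inr
    · rintro (h | h)
      · omega
      · exact h
  obtain ⟨i₀, hi₀⟩ := hconst ∅
  obtain ⟨M₀, hM₀⟩ := trap_const hV hcont hkill ∅ i₀ hi₀
  obtain ⟨i₁, hi₁⟩ := hconst (insert M₀ ∅)
  obtain ⟨M₁, hM₁⟩ := trap_const hV hcont hkill _ i₁ hi₁
  obtain ⟨i₂, hi₂⟩ := hconst (insert (max M₀ M₁) (insert M₀ ∅))
  have h10 : i₁ ≠ i₀ := fun h =>
    hM₀ _ (hins _ _) ⟨M₀, Finset.mem_insert_self _ _, le_rfl⟩ (h ▸ hi₁)
  have h21 : i₂ ≠ i₁ := fun h =>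
    hM₁ _ ((hins _ _).mono (le_max_right _ _))
      ⟨_, Finset.mem_insert_self _ _, le_max_right _ _⟩ (h ▸ hi₂)
  have h20 : i₂ ≠ i₀ := fun h =>
    hM₀ _ ((hins _ _).trans ((hins _ _).mono (le_max_left _ _)))
      ⟨_, Finset.mem_insert_self _ _, le_max_left _ _⟩ (h ▸ hi₂)
  exact h20 (fin2_ne h10 h21)

end Main

end Pool.Agent.P.MP_db6017_lc
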